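import Pool.Agent.Helper458.Sph.Sec

set_option autoImplicit false

namespace Pool.Agent.Results.MP_9044d4_an.SphereS7

open Pool.Sph

/-- For `d = 7`, `p = 4`, `β = 0`, `α ≠ 0`, `γ ≠ 0` (the spherical sections of the cone in `ℝ⁹`) the
function `e^{-|τ|}` is a maximizer. -/
theorem result (α γ : ℝ) (hα : α ≠ 0) (hγ : γ ≠ 0) :
    IsMaximizer α γ (fun ζ : ℝ × E8 => ((Real.exp (-|ζ.1|) : ℝ) : ℂ)) :=
  sec_final α γ hα hγ

end Pool.Agent.Results.MP_9044d4_an.SphereS7
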